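import Pool.Agent.R956.K2

/-!
# Nearly convex sequences which are bounded above: the increments
-/

set_option autoImplicit false
set_option linter.unusedVariables false

namespace Pool.Agent.R945.KR

open Filter Topology

variable {l : ℕ → ℝ} {D : ℝ} {N1 : ℕ}

lemma up (hD : 0 ≤ D) (hN1 : ∀ k, N1 ≤ k → 2 * l (k + 1) ≤ l k + l (k + 2) + D / k) :
    ∀ n : ℕ, N1 + 1 ≤ n → ∀ t : ℕ,
      t * (l (n + 1) - l n) ≤ l (n + t) - l n + D * (t : ℝ) ^ 2 / n := by
  intro n hn t
  have hn0 : (0 : ℝ) < n := by exact_mod_cast (show 0 < n by omega)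
  have hinc : ∀ i : ℕ, l (n + 1) - l n ≤ l (n + i + 1) - l (n + i) + i * (D / n) := by
    intro i
    induction i with
    | zero => simp
    | succ i ih =>
      have h1 := hN1 (n + i) (by omega)
      have h2 : D / ((n + i : ℕ) : ℝ) ≤ D / n := by
        apply div_le_div_of_nonneg_left hD hn0
        push_cast
        have : (0 : ℝ) ≤ i := Nat.cast_nonneg i
        linarith
      rw [show n + (i + 1) + 1 = n + i + 2 by ring, show n + (i + 1) = n + i + 1 by ring]
      push_cast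
      linarith
  induction t with
  | zero => simp
  | succ t ih =>
    have h1 := hinc t
    rw [show n + (t + 1) = n + t + 1 by ring]
    push_cast
    have h3 : D * (t : ℝ) ^ 2 / n + t * (D / n) ≤ D * ((t : ℝ) + 1) ^ 2 / n := by
      rw [mul_div_assoc', ← add_div]
      apply div_le_div_of_nonneg_right _ hn0.le
      have : (0 : ℝ) ≤ t := Nat.cast_nonneg t
      nlinarith
    linarith

lemma dn (hD : 0 ≤ D) (hN1 : ∀ k, N1 ≤ k → 2 * l (k + 1) ≤ l k + l (k + 2) + D / k) :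
    ∀ n t : ℕ, N1 + 1 + t ≤ n →
      l n - l (n - t) ≤ t * (l (n + 1) - l n) + D * (t : ℝ) ^ 2 / ((n : ℝ) - t) := by
  intro n t hn
  obtain ⟨m, rfl⟩ : ∃ m, n = m + t := ⟨n - t, by omega⟩
  have hm : N1 + 1 ≤ m := by omega
  have hm0 : (0 : ℝ) < m := by exact_mod_cast (show 0 < m by omega)
  rw [Nat.add_sub_cancel]
  have e : ((m + t : ℕ) : ℝ) - t = m := by push_cast; ring
  rw [e]
  have hinc : ∀ j i : ℕ, l (m + i + 1) - l (m + i) ≤
      l (m + i + j + 1) - l (m + i + j) + j * (D / m) := by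
    intro j i
    induction j with
    | zero => simp
    | succ j ih =>
      have h1 := hN1 (m + i + j) (by omega)
      have h2 : D / ((m + i + j : ℕ) : ℝ) ≤ D / m := by
        apply div_le_div_of_nonneg_left hD hm0
        push_cast
        have : (0 : ℝ) ≤ i := Nat.cast_nonneg i
        have : (0 : ℝ) ≤ j := Nat.cast_nonneg j
        linarith
      rw [show m + i + (j + 1) + 1 = m + i + j + 2 by ring,
        show m + i + (j + 1) = m + i + j + 1 by ring]
      push_cast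
      linarith
  have hsum : ∀ i : ℕ, i ≤ t → l (m + i) - l m ≤
      i * (l (m + t + 1) - l (m + t)) + i * (t * (D / m)) := by
    intro i
    induction i with
    | zero => intro _; simp
    | succ i ih =>
      intro hi
      have h1 := ih (by omega)
      have h2 := hinc (t - i) i
      rw [show m + i + (t - i) = m + t by omega] at h2
      have h3 : ((t - i : ℕ) : ℝ) * (D / m) ≤ t * (D / m) := by
        apply mul_le_mul_of_nonneg_right _ (by positivity)
        exact_mod_cast Nat.sub_le t i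
      rw [show m + (i + 1) = m + i + 1 by ring]
      push_cast
      linarith
  have h := hsum t le_rfl
  have e2 : (t : ℝ) * (t * (D / m)) = D * (t : ℝ) ^ 2 / m := by ring
  rw [e2] at h
  exact h

/-- **the increments of a nearly convex sequence which is bounded above** -/
theorem rate (hD : 0 ≤ D) (hN1 : ∀ k, N1 ≤ k → 2 * l (k + 1) ≤ l k + l (k + 2) + D / k)
    {M C : ℝ} (hC : 0 ≤ C) (hub : ∀ k, N1 ≤ k → l k ≤ M) (hlb : ∀ k, N1 ≤ k → -(C * k) ≤ l k) :
    ∃ K : ℝ, 0 ≤ K ∧ ∀ᶠ n : ℕ in atTop, |l (n + 1) - l n| ≤ K * √((1 + (M - l n)) / n) := by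
  -- the constant of the window
  obtain ⟨B, hB⟩ : ∃ B, B = D + 1 + 32 * (C + 1) := ⟨_, rfl⟩
  have hB1 : 1 ≤ B := by rw [hB]; nlinarith
  have hB0 : 0 < B := by linarith
  refine ⟨(1 + 4 * D) * √B + √B, by positivity, ?_⟩
  filter_upwards [eventually_ge_atTop (4 * N1 + 4 + ⌈|M|⌉₊ + ⌈B⌉₊)] with n hn
  have hnM : |M| + B ≤ n := by
    have h1 : |M| ≤ ⌈|M|⌉₊ := Nat.le_ceil _
    have h2 : B ≤ ⌈B⌉₊ := Nat.le_ceil _
    have h3 : ((⌈|M|⌉₊ + ⌈B⌉₊ : ℕ) : ℝ) ≤ n := by exact_mod_cast (show ⌈|M|⌉₊ + ⌈B⌉₊ ≤ n by omega)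
    push_cast at h3
    linarith
  have hn4 : (4 : ℝ) ≤ n := by exact_mod_cast (show 4 ≤ n by omega)
  have hn0 : (0 : ℝ) < n := by linarith
  obtain ⟨s, hs⟩ : ∃ s, s = 1 + (M - l n) := ⟨_, rfl⟩
  rw [← hs]
  have hub' := hub n (by omega)
  have hlb' := hlb n (by omega)
  have hs1 : 1 ≤ s := by rw [hs]; linarith
  have hs0 : 0 < s := by linarith
  have hsn : s ≤ (C + 2) * n := by
    rw [hs]
    have := le_abs_self M
    nlinarith
  -- the length of the window
  obtain ⟨x, hx⟩ : ∃ x, x = √(n * s / B) := ⟨_, rfl⟩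
  have hxx : x ^ 2 = n * s / B := by rw [hx, Real.sq_sqrt (by positivity)]
  have hx1 : 1 ≤ x := by
    rw [hx, Real.one_le_sqrt, one_le_div hB0]
    have : |M| ≥ 0 := abs_nonneg _
    nlinarith
  have hx0 : 0 < x := by linarith
  have hxn : x ≤ n / 4 := by
    rw [hx, Real.sqrt_le_iff]
    refine ⟨by positivity, ?_⟩
    rw [div_le_iff₀ hB0]
    have h1 : n * s ≤ n * ((C + 2) * n) := mul_le_mul_of_nonneg_left hsn hn0.le
    have h2 : n * ((C + 2) * n) ≤ (n / 4) ^ 2 * B := by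
      rw [hB]
      have h3 : 0 ≤ (n : ℝ) ^ 2 := by positivity
      have h4 : (n / 4 : ℝ) ^ 2 * (D + 1 + 32 * (C + 1)) = n ^ 2 * ((D + 1) / 16 + 2 * (C + 1)) := by
        ring
      have h5 : n * ((C + 2) * n) = (n : ℝ) ^ 2 * (C + 2) := by ring
      rw [h4, h5]
      apply mul_le_mul_of_nonneg_left _ h3
      have : 0 ≤ (D + 1) / 16 := by positivity
      linarith
    exact h1.trans h2
  obtain ⟨t, ht⟩ : ∃ t : ℕ, t = ⌈x⌉₊ := ⟨_, rfl⟩
  have ht1 : x ≤ t := by rw [ht]; exact Nat.le_ceil _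
  have ht2 : (t : ℝ) < x + 1 := by rw [ht]; exact Nat.ceil_lt_add_one hx0.le
  have ht3 : (t : ℝ) ≤ 2 * x := by linarith
  have ht0 : (0 : ℝ) < t := by linarith
  have htn : (t : ℝ) ≤ n / 2 := by linarith
  have htn' : 2 * t ≤ n := by
    have : (2 * t : ℝ) ≤ n := by linarith
    exact_mod_cast this
  have u1 := up hD hN1 n (by omega) t
  have u2 := dn hD hN1 n t (by omega)
  have v1 := hub (n + t) (by omega)
  have v2 := hub (n - t) (by omega)
  have w2 : D * (t : ℝ) ^ 2 / ((n : ℝ) - t) ≤ 2 * (D * (t : ℝ) ^ 2 / n) := by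
    have h1 : D * (t : ℝ) ^ 2 / ((n : ℝ) - t) ≤ D * (t : ℝ) ^ 2 / ((n : ℝ) / 2) :=
      div_le_div_of_nonneg_left (by positivity) (by linarith) (by linarith)
    have h2 : D * (t : ℝ) ^ 2 / ((n : ℝ) / 2) = 2 * (D * (t : ℝ) ^ 2 / n) := by field_simp
    linarith
  have w0 : 0 ≤ D * (t : ℝ) ^ 2 / n := by positivity
  have key : |l (n + 1) - l n| * t ≤ s + 2 * (D * (t : ℝ) ^ 2 / n) := by
    have h3 : |(l (n + 1) - l n) * t| ≤ s + 2 * (D * (t : ℝ) ^ 2 / n) := by
      rw [abs_le]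
      constructor
      · linarith
      · linarith
    rwa [abs_mul, abs_of_pos ht0] at h3
  -- conclusion
  obtain ⟨r, hr⟩ : ∃ r, r = √(s / n) := ⟨_, rfl⟩
  obtain ⟨b, hb⟩ : ∃ b, b = √B := ⟨_, rfl⟩
  have hr0 : 0 < r := by rw [hr]; exact Real.sqrt_pos.mpr (by positivity)
  have hb0 : 0 < b := by rw [hb]; exact Real.sqrt_pos.mpr hB0
  have hrr : r ^ 2 = s / n := by rw [hr, Real.sq_sqrt (by positivity)]
  have hbb : b ^ 2 = B := by rw [hb, Real.sq_sqrt hB0.le]
  have hb1 : 1 ≤ b := by rw [hb, Real.one_le_sqrt]; exact hB1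
  rw [← hr, ← hb]
  have exr : x * b = n * r := by
    have h1 : (x * b) ^ 2 = (n * r) ^ 2 := by
      rw [mul_pow, mul_pow, hxx, hbb, hrr]
      field_simp
    exact (pow_left_inj₀ (by positivity) (by positivity) two_ne_zero).mp h1
  have es : s = b * r * x := by
    have h1 : b * r * x = r * (x * b) := by ring
    rw [h1, exr]
    have h2 : r * (n * r) = n * r ^ 2 := by ring
    rw [h2, hrr]
    field_simp
  have h4 : |l (n + 1) - l n| * t ≤ ((1 + 4 * D) * b + b) * r * t := by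
    refine key.trans ?_
    have h5 : s ≤ b * r * t := by
      rw [es]
      apply mul_le_mul_of_nonneg_left ht1 (by positivity)
    have h6 : 2 * (D * (t : ℝ) ^ 2 / n) ≤ 4 * D * b * r * t := by
      have h7 : (t : ℝ) / n ≤ 2 * (r * b) := by
        rw [div_le_iff₀ hn0]
        calc (t : ℝ) ≤ 2 * x := ht3
          _ ≤ 2 * (x * b * b) := by nlinarith [mul_pos hx0 hb0]
          _ = 2 * (r * b) * n := by rw [exr]; ring
      calc 2 * (D * (t : ℝ) ^ 2 / n) = 2 * D * t * ((t : ℝ) / n) := by ring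
        _ ≤ 2 * D * t * (2 * (r * b)) := by gcongr
        _ = 4 * D * b * r * t := by ring
    have h8 : 0 ≤ b * r * t := by positivity
    nlinarith
  exact le_of_mul_le_mul_right h4 ht0

end Pool.Agent.R945.KR
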