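import Pool.Agent.R945.KR.Abs
import Pool.Agent.TH966.KS.Kn

/-!
# Lattice knots: rates in the ratio limit theorem
-/

set_option autoImplicit false
set_option linter.unusedVariables false

namespace Pool.Agent.R945.KR

open Finset Filter Topology KN TH966.KS
open Pool.Agent.R956.K1 (Kc)

theorem low_of {y : ℕ → ℝ} (hpos : ∀ᶠ k : ℕ in atTop, 0 < y k)
    (h : Tendsto (fun k : ℕ => Real.log (y k) / k) atTop (𝓝 0)) (θ : ℝ) (h0 : 0 < θ) (h1 : θ < 1) :
    ∀ᶠ k : ℕ in atTop, θ ^ (2 * k) ≤ y k := by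
  have hl : 2 * Real.log θ < 0 := by
    have := Real.log_neg h0 h1
    linarith
  filter_upwards [hpos, h.eventually_const_lt hl, eventually_ge_atTop 1] with k h2 h3 h4
  have hk0 : (0 : ℝ) < k := by exact_mod_cast h4
  rw [lt_div_iff₀ hk0] at h3
  have h5 : Real.log (θ ^ (2 * k)) ≤ Real.log (y k) := by
    rw [Real.log_pow]
    push_cast
    linarith
  exact (Real.log_le_log_iff (by positivity) h2).mp h5

theorem kcQ (Q : List Dir → Prop) (hQ : KClass Q) (hne : ∃ w, SAP w ∧ Q w)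
    (h : Tendsto (fun k : ℕ => Real.log (yq Q k) / k) atTop (𝓝 0)) : ∃ D, Kc (yq Q) D := by
  obtain ⟨D, θ, k0, hD, hθ0, hθ1, hK⟩ := kes_yq Q hQ hne
  obtain ⟨h1, -, -⟩ := gr_bounds Q hQ hne
  have hμ : 0 < gr Q := by linarith
  have hpos : ∀ᶠ k : ℕ in atTop, 0 < yq Q k := by
    filter_upwards [class_pos Q hQ hne] with k hk
    exact div_pos hk (pow_pos hμ _)
  refine ⟨D, yq_nonneg Q hμ.le, hpos, hD, ?_⟩
  have h2 := (tendsto_add_atTop_nat 1).eventually (low_of hpos h θ hθ0 hθ1)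
  filter_upwards [h2, eventually_ge_atTop k0] with k h3 h4
  exact hK k h4 h3

theorem ratio_eq (Q : List Dir → Prop) (hQ : KClass Q) (hne : ∃ w, SAP w ∧ Q w) (k : ℕ) :
    pq Q (2 * k + 2) / (gr Q ^ 2 * pq Q (2 * k)) = yq Q (k + 1) / yq Q k := by
  obtain ⟨h1, -, -⟩ := gr_bounds Q hQ hne
  have hμ : 0 < gr Q := by linarith
  unfold yq
  rw [show 2 * (k + 1) = 2 * k + 2 by ring, pow_add]
  have h2 : gr Q ^ (2 * k) ≠ 0 := (pow_pos hμ _).ne'
  rcases eq_or_ne (pq Q (2 * k)) 0 with h0 | h0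
  · rw [h0]
    simp
  · field_simp

/-- the counts of a class closed under connected sums are not exponentially small -/
theorem log_csum (Q : List Dir → Prop) (hQ : KClass Q) (hne : ∃ w, SAP w ∧ Q w) (hc : CSum Q) :
    Tendsto (fun k : ℕ => Real.log (yq Q k) / k) atTop (𝓝 0) := by
  obtain ⟨h1, -, -⟩ := gr_bounds Q hQ hne
  have hμ : 0 < gr Q := by linarith
  have h2 := (class_sum Q hQ hne hc).1
  have h3 : Tendsto (fun k : ℕ => Real.log ((pq Q (2 * k)) ^ (1 / (2 * k : ℝ)))) atTop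
      (𝓝 (Real.log (gr Q))) := h2.log hμ.ne'
  have h4 : Tendsto (fun k : ℕ => 2 * Real.log ((pq Q (2 * k)) ^ (1 / (2 * k : ℝ))) -
      2 * Real.log (gr Q)) atTop (𝓝 (2 * Real.log (gr Q) - 2 * Real.log (gr Q))) :=
    (h3.const_mul 2).sub_const _
  rw [sub_self] at h4
  refine h4.congr' ?_
  filter_upwards [class_pos Q hQ hne, eventually_ge_atTop 1] with k h5 h6
  have hk0 : (0 : ℝ) < k := by exact_mod_cast h6
  unfold yq
  rw [Real.log_rpow h5, Real.log_div h5.ne' (pow_pos hμ _).ne', Real.log_pow]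
  push_cast
  field_simp

/-- supermultiplicativity gives an upper bound -/
theorem ub_csum (Q : List Dir → Prop) (hQ : KClass Q) (hne : ∃ w, SAP w ∧ Q w) (hc : CSum Q) :
    ∀ᶠ k : ℕ in atTop, yq Q k ≤ 16 := by
  obtain ⟨h1, -, -⟩ := gr_bounds Q hQ hne
  have hμ : 0 < gr Q := by linarith
  have hpq := class_pos Q hQ hne
  have hpos : ∀ᶠ j : ℕ in atTop, 0 < (a Q (2 * j) : ℝ) := by
    filter_upwards [hpq, eventually_gt_atTop 0] with j h3 hj
      using h3.trans_le (GEN.pn_le_a Q j hj)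
  obtain ⟨s0, hs0⟩ := eventually_atTop.1 hpos
  obtain ⟨s, hs⟩ : ∃ s, s = s0 + 1 := ⟨_, rfl⟩
  obtain ⟨x, hx⟩ : ∃ x : ℕ → ℝ, x = fun k => (a Q (2 * k) : ℝ) := ⟨_, rfl⟩
  have hxpos : ∀ k, s ≤ k → 0 < x k := fun k hk => by
    rw [hx]; exact hs0 k (by omega)
  have hsup : ∀ n m, x n * x m ≤ 32 * m * x (n + m) := by
    intro n m
    have h := GEN.super Q hQ hc (2 * n) (2 * m)
    have h' : (a Q (2 * n) : ℝ) * a Q (2 * m) ≤ 16 * (2 * m) * a Q (2 * n + 2 * m) := by
      exact_mod_cast h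
    simp only [hx, mul_add]
    linarith
  have hsup' : ∀ n m, x n * x m ≤ 32 * n * x (n + m) := by
    intro n m
    have := hsup m n
    rw [add_comm m n, mul_comm] at this
    exact this
  obtain ⟨t, ht⟩ : ∃ t : ℕ → ℝ, t = fun k : ℕ => Real.log (x k / (64 * k)) := ⟨_, rfl⟩
  have hk0 : ∀ k : ℕ, s ≤ k → (0 : ℝ) < k := fun k hk => by
    exact_mod_cast (show 0 < k by omega)
  have hyp : ∀ k, s ≤ k → 0 < x k / (64 * k) := fun k hk => by
    have := hxpos k hk
    have := hk0 k hk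
    positivity
  have htadd : ∀ n m, s ≤ n → s ≤ m → t n + t m ≤ t (n + m) := by
    intro n m hn hm
    have hn0 := hk0 n hn
    have hm0 := hk0 m hm
    have hn1 : 0 < n := by omega
    have hm1 : 0 < m := by omega
    simp only [ht]
    rw [← Real.log_mul (hyp n hn).ne' (hyp m hm).ne']
    refine Real.log_le_log (mul_pos (hyp n hn) (hyp m hm)) ?_
    have hx0 : 0 < x (n + m) := hxpos _ (by omega)
    rw [div_mul_div_comm, div_le_div_iff₀ (by positivity) (by positivity)]
    push_cast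
    rcases le_total (n : ℝ) m with hnm | hnm
    · have h1 := hsup' n m
      have h2 : x n * x m * (64 * (n + m)) ≤ 32 * n * x (n + m) * (64 * (m + m)) := by
        apply mul_le_mul h1 (by linarith) (by positivity) (by positivity)
      have e : 32 * n * x (n + m) * (64 * ((m : ℝ) + m)) = x (n + m) * (64 * n * (64 * m)) := by ring
      linarith [h2, e]
    · have h1 := hsup n m
      have h2 : x n * x m * (64 * (n + m)) ≤ 32 * m * x (n + m) * (64 * (n + n)) := by
        apply mul_le_mul h1 (by linarith) (by positivity) (by positivity)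
      have e : 32 * m * x (n + m) * (64 * ((n : ℝ) + n)) = x (n + m) * (64 * n * (64 * m)) := by ring
      linarith [h2, e]
  -- the limit of `t k / k`
  have hxy : ∀ k : ℕ, 1 ≤ k → x k = yq Q k * gr Q ^ (2 * k) * (4 * k) := by
    intro k hk
    have hk0 : (0 : ℝ) < k := by exact_mod_cast hk
    have := pow_pos hμ (2 * k)
    rw [hx]
    unfold yq pq
    push_cast
    field_simp
    ring
  have hlim : Tendsto (fun k : ℕ => t k / k) atTop (𝓝 (2 * Real.log (gr Q))) := by
    have g1 := log_csum Q hQ hne hc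
    have g2 : Tendsto (fun k : ℕ => Real.log 16 / (k : ℝ)) atTop (𝓝 0) :=
      tendsto_const_div_atTop_nhds_zero_nat _
    have g3 : Tendsto (fun k : ℕ => Real.log (yq Q k) / k - Real.log 16 / k + 2 * Real.log (gr Q))
        atTop (𝓝 (0 - 0 + 2 * Real.log (gr Q))) := (g1.sub g2).add_const _
    rw [sub_zero, zero_add] at g3
    refine g3.congr' ?_
    filter_upwards [hpq, eventually_ge_atTop 1] with k g4 g5
    have hk0 : (0 : ℝ) < k := by exact_mod_cast g5
    have hy : 0 < yq Q k := div_pos g4 (pow_pos hμ _)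
    have e : x k / (64 * k) = yq Q k * gr Q ^ (2 * k) / 16 := by
      rw [hxy k g5]
      field_simp
      ring
    simp only [ht]
    rw [e, Real.log_div (by positivity) (by norm_num), Real.log_mul hy.ne' (pow_pos hμ _).ne',
      Real.log_pow]
    push_cast
    field_simp
    ring
  -- `t n ≤ n L`
  have hmul : ∀ n, s ≤ n → ∀ j : ℕ, ((j : ℝ) + 1) * t n ≤ t ((j + 1) * n) := by
    intro n hn j
    induction j with
    | zero => simp
    | succ j ih =>
      have g1 := htadd ((j + 1) * n) n (hn.trans (Nat.le_mul_of_pos_left n (by omega))) hn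
      have e : (j + 1 + 1) * n = (j + 1) * n + n := by ring
      rw [e]
      push_cast
      linarith
  have htle : ∀ n, s ≤ n → t n ≤ 2 * Real.log (gr Q) * n := by
    intro n hn
    have hn0 := hk0 n hn
    have g1 : Tendsto (fun j : ℕ => (j + 1) * n) atTop atTop := by
      refine tendsto_atTop_mono (fun j => ?_) tendsto_id
      simp only [id]
      have : 1 ≤ n := by omega
      nlinarith
    have g2 := hlim.comp g1
    have g3 : t n / n ≤ 2 * Real.log (gr Q) := by
      refine ge_of_tendsto g2 (Eventually.of_forall fun j => ?_)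
      simp only [Function.comp]
      have hj : (0 : ℝ) < (j : ℝ) + 1 := by positivity
      rw [div_le_div_iff₀ hn0 (by push_cast; positivity)]
      push_cast
      have := mul_le_mul_of_nonneg_right (hmul n hn j) hn0.le
      linarith
    rwa [div_le_iff₀ hn0] at g3
  filter_upwards [eventually_ge_atTop s] with k hk
  have g1 := htle k hk
  have hk1 : 1 ≤ k := by omega
  have hkk : (0 : ℝ) < k := by exact_mod_cast hk1
  have hμk : 0 < gr Q ^ (2 * k) := pow_pos hμ _
  have e : x k / (64 * k) = yq Q k * gr Q ^ (2 * k) / 16 := by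
    rw [hxy k hk1]
    field_simp
    ring
  have g2 : x k / (64 * k) ≤ gr Q ^ (2 * k) := by
    have g3 : Real.log (x k / (64 * k)) ≤ Real.log (gr Q ^ (2 * k)) := by
      rw [Real.log_pow]
      push_cast
      simp only [ht] at g1
      linarith
    exact (Real.log_le_log_iff (hyp k hk) hμk).mp g3
  rw [e, div_le_iff₀ (by norm_num)] at g2
  have g3 : yq Q k * gr Q ^ (2 * k) ≤ 16 * gr Q ^ (2 * k) := by linarith
  exact le_of_mul_le_mul_right g3 hμk

/-- **rate in the ratio limit theorem** -/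
theorem rate_csum (Q : List Dir → Prop) (hQ : KClass Q) (hne : ∃ w, SAP w ∧ Q w) (hc : CSum Q) :
    ∃ K : ℝ, ∀ᶠ k : ℕ in atTop, |pq Q (2 * k + 2) / (gr Q ^ 2 * pq Q (2 * k)) - 1| ≤
      K * √((4 + Real.log (gr Q ^ (2 * k) / pq Q (2 * k))) / k) := by
  have hlog := log_csum Q hQ hne hc
  obtain ⟨D, KK⟩ := kcQ Q hQ hne hlog
  obtain ⟨h1, -, -⟩ := gr_bounds Q hQ hne
  have hμ : 0 < gr Q := by linarith
  have hlow := low_of KK.pos hlog (1 / 2) (by norm_num) (by norm_num)
  obtain ⟨N1, hN1⟩ := eventually_atTop.1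
    ((KK.conv.and (ub_csum Q hQ hne hc)).and (hlow.and KK.pos))
  have hl16 : Real.log 16 ≤ 3 := by
    have h2 : Real.log 16 = 4 * Real.log 2 := by
      rw [show (16 : ℝ) = 2 ^ 4 by norm_num, Real.log_pow]
      norm_num
    have := Real.log_two_lt_d9
    linarith
  obtain ⟨K, hK0, hK⟩ := rate (l := fun k => Real.log (yq Q k)) (N1 := N1) KK.D0
    (fun k hk => (hN1 k hk).1.1) (M := 3) (C := 2 * Real.log 2)
    (by have := Real.log_two_gt_d9; linarith)
    (fun k hk => (Real.log_le_log (hN1 k hk).2.2 (hN1 k hk).1.2).trans hl16)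
    (fun k hk => by
      have h2 := Real.log_le_log (by positivity) (hN1 k hk).2.1
      rw [Real.log_pow, one_div, Real.log_inv] at h2
      push_cast at h2
      linarith)
  refine ⟨2 * K, ?_⟩
  have hsmall : Tendsto (fun k : ℕ => (1 + (3 - Real.log (yq Q k))) / k) atTop (𝓝 0) := by
    have g2 : Tendsto (fun k : ℕ => (4 : ℝ) / (k : ℝ)) atTop (𝓝 0) :=
      tendsto_const_div_atTop_nhds_zero_nat _
    have g3 := g2.sub hlog
    rw [sub_zero] at g3
    refine g3.congr fun k => ?_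
    rw [← sub_div]
    congr 1
    ring
  have hK1 : ∀ᶠ k : ℕ in atTop, (1 + (3 - Real.log (yq Q k))) / k < (1 / (K + 1)) ^ 2 :=
    hsmall.eventually_lt_const (by positivity)
  have hpos1 : ∀ᶠ k : ℕ in atTop, 0 < yq Q (k + 1) := (tendsto_add_atTop_nat 1).eventually KK.pos
  filter_upwards [hK, hK1, KK.pos, hpos1] with k g1 g2 g3 g4
  have g5 : √((1 + (3 - Real.log (yq Q k))) / k) < 1 / (K + 1) := by
    rw [Real.sqrt_lt' (by positivity)]
    exact g2
  have hd : |Real.log (yq Q (k + 1)) - Real.log (yq Q k)| ≤ 1 := by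
    refine g1.trans ?_
    have g6 : K * √((1 + (3 - Real.log (yq Q k))) / k) ≤ K * (1 / (K + 1)) := by gcongr
    refine g6.trans ?_
    rw [mul_one_div, div_le_one (by positivity)]
    linarith
  have e : yq Q (k + 1) / yq Q k = Real.exp (Real.log (yq Q (k + 1)) - Real.log (yq Q k)) := by
    rw [Real.exp_sub, Real.exp_log g4, Real.exp_log g3]
  have e2 : 1 + (3 - Real.log (yq Q k)) = 4 + Real.log (gr Q ^ (2 * k) / pq Q (2 * k)) := by
    have e3 : gr Q ^ (2 * k) / pq Q (2 * k) = (yq Q k)⁻¹ := by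
      unfold yq
      rw [inv_div]
    rw [e3, Real.log_inv]
    ring
  rw [ratio_eq Q hQ hne, e, ← e2]
  refine (Pool.Agent.R956.K1.exp_sub_one_le hd).trans ?_
  linarith

/-- **consequence of the asymptotic form** -/
theorem of_form (Q : List Dir → Prop) (hQ : KClass Q) (hne : ∃ w, SAP w ∧ Q w) {A β : ℝ}
    (hA : 0 < A)
    (h : Tendsto (fun k : ℕ => pq Q (2 * k) / ((2 * k : ℝ) ^ β * gr Q ^ (2 * k))) atTop (𝓝 A)) :
    Tendsto (fun k : ℕ => (pq Q (2 * k + 2) / (gr Q ^ 2 * pq Q (2 * k)) - 1) * √(k : ℝ)) atTop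
      (𝓝 0) := by
  obtain ⟨h1, -, -⟩ := gr_bounds Q hQ hne
  have hμ : 0 < gr Q := by linarith
  simp only [yq_form] at h
  have hy : Tendsto (fun k : ℕ => yq Q k / (k : ℝ) ^ β) atTop (𝓝 (A * 2 ^ β)) := by
    refine (h.mul_const (2 ^ β)).congr' ?_
    filter_upwards [eventually_ge_atTop 1] with k hk
    have hk0 : (0 : ℝ) < k := by exact_mod_cast hk
    rw [Real.mul_rpow (by norm_num) hk0.le]
    have h2 : (0 : ℝ) < 2 ^ β := Real.rpow_pos_of_pos (by norm_num) _
    have h3 : (0 : ℝ) < (k : ℝ) ^ β := Real.rpow_pos_of_pos hk0 _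
    field_simp
  have hA2 : 0 < A * 2 ^ β := mul_pos hA (Real.rpow_pos_of_pos (by norm_num) _)
  have hpos : ∀ᶠ k : ℕ in atTop, 0 < yq Q k := by
    filter_upwards [class_pos Q hQ hne] with k hk
    exact div_pos hk (pow_pos hμ _)
  have hlog : Tendsto (fun k : ℕ => Real.log (yq Q k) / k) atTop (𝓝 0) := by
    have g1 : Tendsto (fun k : ℕ => Real.log (yq Q k / (k : ℝ) ^ β)) atTop
        (𝓝 (Real.log (A * 2 ^ β))) := hy.log hA2.ne'
    have g2 : Tendsto (fun k : ℕ => ((k : ℕ) : ℝ)) atTop atTop := tendsto_natCast_atTop_atTop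
    have g3 := g1.div_atTop g2
    have g4 := (Pool.Agent.R956.K1.log_over.const_mul β)
    rw [mul_zero] at g4
    have g5 := g3.add g4
    rw [add_zero] at g5
    refine g5.congr' ?_
    filter_upwards [hpos, eventually_ge_atTop 1] with k g6 g7
    rw [Pool.Agent.R956.K1.log_form g7 g6]
    ring
  obtain ⟨D, KK⟩ := kcQ Q hQ hne hlog
  refine (KK.ratio_form hA2 hy).congr fun k => ?_
  rw [ratio_eq Q hQ hne]

/-- **consequence of the exponent** -/
theorem of_expo (Q : List Dir → Prop) (hQ : KClass Q) (hne : ∃ w, SAP w ∧ Q w) {β : ℝ}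
    (h : Tendsto (fun k : ℕ => Real.log (pq Q (2 * k) / gr Q ^ (2 * k)) / Real.log (2 * k)) atTop
      (𝓝 β)) :
    Tendsto (fun k : ℕ => (pq Q (2 * k + 2) / (gr Q ^ 2 * pq Q (2 * k)) - 1) *
      √((k : ℝ) / Real.log k)) atTop (𝓝 0) := by
  obtain ⟨h1, -, -⟩ := gr_bounds Q hQ hne
  have hμ : 0 < gr Q := by linarith
  change Tendsto (fun k : ℕ => Real.log (yq Q k) / Real.log (2 * k)) atTop (𝓝 β) at h
  have hlk : Tendsto (fun k : ℕ => Real.log (k : ℝ)) atTop atTop :=
    Real.tendsto_log_atTop.comp tendsto_natCast_atTop_atTop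
  have hr : Tendsto (fun k : ℕ => Real.log (2 * (k : ℝ)) / Real.log k) atTop (𝓝 1) := by
    have g1 : Tendsto (fun k : ℕ => Real.log 2 / Real.log (k : ℝ) + 1) atTop (𝓝 (0 + 1)) :=
      (tendsto_const_nhds.div_atTop hlk).add_const 1
    rw [zero_add] at g1
    refine g1.congr' ?_
    filter_upwards [eventually_ge_atTop 3] with k hk
    have hk0 : (0 : ℝ) < k := by exact_mod_cast (show 0 < k by omega)
    have := Pool.Agent.R956.K1.log_scale hk
    rw [Real.log_mul (by norm_num) hk0.ne', add_div, div_self (by linarith)]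
  have hy : Tendsto (fun k : ℕ => Real.log (yq Q k) / Real.log k) atTop (𝓝 β) := by
    have g1 := h.mul hr
    rw [mul_one] at g1
    refine g1.congr' ?_
    filter_upwards [eventually_ge_atTop 3] with k hk
    have hk0 : (3 : ℝ) ≤ k := by exact_mod_cast hk
    have : 0 < Real.log (2 * (k : ℝ)) := Real.log_pos (by linarith)
    rw [div_mul_div_cancel₀ this.ne']
  have hlog : Tendsto (fun k : ℕ => Real.log (yq Q k) / k) atTop (𝓝 0) := by
    have g1 := hy.mul Pool.Agent.R956.K1.log_over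
    rw [mul_zero] at g1
    refine g1.congr' ?_
    filter_upwards [eventually_ge_atTop 3] with k hk
    have := Pool.Agent.R956.K1.log_scale hk
    rw [div_mul_div_cancel₀ (by linarith)]
  obtain ⟨D, KK⟩ := kcQ Q hQ hne hlog
  refine (KK.ratio_expo hy).congr fun k => ?_
  rw [ratio_eq Q hQ hne]

end Pool.Agent.R945.KR
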